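import Pool.Agent.H20.PT.Chain

/-! Project PT: bounded returns in a compact metric space. -/

set_option autoImplicit false

open Filter Set Metric Topology

universe u

namespace Pool.Agent.H21.PT

/-- a chain near an orbit -/
theorem follow {X : Type u} [MetricSpace X] (f : X ≃ₜ X) (x : X) (m : ℕ) :
    ∀ η : ℝ, 0 < η → ∃ ε : ℝ, 0 < ε ∧ ∀ c : ℕ → X, c 0 = x →
      (∀ i < m, dist (f (c i)) (c (i + 1)) < ε) → dist (f^[m] x) (c m) < η := by
  induction m with
  | zero =>
    intro η hη
    refine ⟨1, one_pos, fun c h0 _ => ?_⟩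
    simp only [Function.iterate_zero, id_eq, h0, dist_self, hη]
  | succ m ih =>
    intro η hη
    have hc := Metric.continuousAt_iff.mp (f.continuous.continuousAt (x := f^[m] x)) (η / 2) (half_pos hη)
    obtain ⟨η', hη', h⟩ := hc
    obtain ⟨ε, hε, h2⟩ := ih η' hη'
    refine ⟨min ε (η / 2), lt_min hε (half_pos hη), fun c h0 hs => ?_⟩
    have h3 := h2 c h0 fun i hi => lt_of_lt_of_le (hs i (by omega)) (min_le_left _ _)
    have h4 : dist (f (c m)) (f (f^[m] x)) < η / 2 := h (by rw [dist_comm]; exact h3)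
    have h5 := lt_of_lt_of_le (hs m (by omega)) (min_le_right _ _)
    rw [Function.iterate_succ_apply']
    calc dist (f (f^[m] x)) (c (m + 1)) ≤ dist (f (f^[m] x)) (f (c m)) + dist (f (c m)) (c (m + 1)) := dist_triangle _ _ _
      _ < η / 2 + η / 2 := add_lt_add (by rw [dist_comm]; exact h4) h5
      _ = η := by ring

/-- returns of arbitrary length -/
theorem ret {X : Type u} [MetricSpace X] (f : X ≃ₜ X) (x : X)
    (hx : ∀ ε : ℝ, 0 < ε → ∃ (n : ℕ) (c : ℕ → X), 0 < n ∧ c 0 = x ∧ c n = x ∧
      ∀ i < n, dist (f (c i)) (c (i + 1)) < ε) (m : ℕ) (δ : ℝ) (hδ : 0 < δ) :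
    ∃ (n : ℕ) (c : ℕ → X), 1 ≤ n ∧ c 0 = f^[m] x ∧ c n = x ∧ ∀ i < n, dist (f (c i)) (c (i + 1)) < δ := by
  have hc := Metric.continuousAt_iff.mp (f.continuous.continuousAt (x := f^[m] x)) (δ / 2) (half_pos hδ)
  obtain ⟨η, hη, h⟩ := hc
  obtain ⟨ε, hε, h2⟩ := follow f x m η hη
  obtain ⟨n, c, hn, h0, hn', hs⟩ := hx (min ε (δ / 2)) (lt_min hε (half_pos hδ))
  -- periodic extension
  set c' : ℕ → X := fun i => c (i % n) with hc'
  have hs' : ∀ i, dist (f (c' i)) (c' (i + 1)) < min ε (δ / 2) := by
    intro i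
    have hlt : i % n < n := Nat.mod_lt _ hn
    have h3 := hs (i % n) hlt
    have h4 : c' (i + 1) = c (i % n + 1) := by
      simp only [hc']
      rcases Nat.lt_or_ge (i % n + 1) n with h5 | h5
      · rw [Nat.add_mod, Nat.mod_eq_of_lt (show 1 < n by omega), Nat.mod_eq_of_lt h5]
      · have h6 : i % n + 1 = n := by omega
        rw [h6, hn']
        have h7 : (i + 1) % n = 0 := by
          rw [← Nat.mod_add_mod, h6, Nat.mod_self]
        rw [h7, h0]
    rw [h4]
    exact h3
  have h0' : c' 0 = x := by simp only [hc', Nat.zero_mod, h0]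
  have hN : c' (n * (m + 1)) = x := by simp only [hc', Nat.mul_mod_right, h0]
  have hge : m + 1 ≤ n * (m + 1) := Nat.le_mul_of_pos_left _ hn
  refine ⟨n * (m + 1) - m, fun i => if i = 0 then f^[m] x else c' (m + i), by omega, if_pos rfl, ?_, ?_⟩
  · have h8 : n * (m + 1) - m ≠ 0 := by omega
    simp only [h8, if_false]
    rw [show m + (n * (m + 1) - m) = n * (m + 1) by omega, hN]
  · intro i _
    by_cases hi : i = 0
    · subst hi
      simp only [if_true, zero_add, one_ne_zero, if_false]
      have h9 := h2 c' h0' fun i _ => lt_of_lt_of_le (hs' i) (min_le_left _ _)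
      have h10 : dist (f (c' m)) (f (f^[m] x)) < δ / 2 := h (by rw [dist_comm]; exact h9)
      have h11 := lt_of_lt_of_le (hs' m) (min_le_right _ _)
      calc dist (f (f^[m] x)) (c' (m + 1)) ≤ dist (f (f^[m] x)) (f (c' m)) + dist (f (c' m)) (c' (m + 1)) := dist_triangle _ _ _
        _ < δ / 2 + δ / 2 := add_lt_add (by rw [dist_comm]; exact h10) h11
        _ = δ := by ring
    · have h12 : i + 1 ≠ 0 := by omega
      simp only [hi, h12, if_false]
      have h13 := lt_of_lt_of_le (hs' (m + i)) (min_le_right _ _)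
      rw [← add_assoc]
      linarith

/-- shortening of chains -/
theorem short {X : Type u} [MetricSpace X] (f : X ≃ₜ X) (δ : ℝ) {ι : Type*} [DecidableEq ι] (cell : X → ι)
    (hcell : ∀ p q, cell p = cell q → dist p q < δ / 2) (k : ℕ) :
    ∀ (s : Finset ι), s.card ≤ k → ∀ (n : ℕ) (c : ℕ → X), 1 ≤ n → (∀ i < n, dist (f (c i)) (c (i + 1)) < δ / 2) →
      (∀ i, 1 ≤ i → i ≤ n → cell (c i) ∈ s) →
      ∃ (n' : ℕ) (d : ℕ → X), 1 ≤ n' ∧ n' ≤ k ∧ d 0 = c 0 ∧ d n' = c n ∧ ∀ i < n', dist (f (d i)) (d (i + 1)) < δ := by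
  induction k with
  | zero =>
    intro s hs n c hn _ hm
    have h := hm 1 le_rfl hn
    have : s = ∅ := Finset.card_eq_zero.mp (by omega)
    rw [this] at h
    simp at h
  | succ k ih =>
    intro s hs n c hn hstep hm
    set a := cell (c 1) with ha
    set j := Nat.findGreatest (fun j => 1 ≤ j ∧ cell (c j) = a) n with hj
    have hj1 : 1 ≤ j ∧ cell (c j) = a := Nat.findGreatest_spec (P := fun j => 1 ≤ j ∧ cell (c j) = a) hn ⟨le_rfl, rfl⟩
    have hjn : j ≤ n := Nat.findGreatest_le n
    have hafter : ∀ i, j < i → i ≤ n → cell (c i) ≠ a := by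
      intro i hi hin h
      have := Nat.le_findGreatest (P := fun j => 1 ≤ j ∧ cell (c j) = a) hin ⟨by omega, h⟩
      omega
    have hjump : dist (f (c 0)) (c j) < δ := by
      have h1 := hstep 0 hn
      have h2 := hcell (c 1) (c j) (by rw [hj1.2])
      have h3 := dist_triangle (f (c 0)) (c 1) (c j)
      rw [zero_add] at h1
      linarith
    rcases Nat.lt_or_ge j n with hlt | hge
    · obtain ⟨n', d, h1, h2, h3, h4, h5⟩ := ih (s.erase a) (by
          have hmem : a ∈ s := hm 1 le_rfl hn
          rw [Finset.card_erase_of_mem hmem]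
          omega) (n - j) (fun i => c (j + i)) (by omega)
        (fun i hi => by rw [← add_assoc]; exact hstep (j + i) (by omega))
        (fun i hi hi' => Finset.mem_erase.mpr ⟨hafter (j + i) (by omega) (by omega), hm (j + i) (by omega) (by omega)⟩)
      refine ⟨n' + 1, fun i => if i = 0 then c 0 else d (i - 1), by omega, by omega, if_pos rfl, ?_, ?_⟩
      · have : n' + 1 ≠ 0 := by omega
        simp only [this, if_false, Nat.add_sub_cancel]
        rw [h4]
        show c (j + (n - j)) = c n
        rw [show j + (n - j) = n by omega]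
      · intro i hi
        by_cases h0 : i = 0
        · subst h0
          simp only [if_true, zero_add, one_ne_zero, if_false, Nat.sub_self]
          rw [h3]
          simpa using hjump
        · have h6 : i + 1 ≠ 0 := by omega
          simp only [h0, h6, if_false]
          have h7 := h5 (i - 1) (by omega)
          rw [show i - 1 + 1 = i + 1 - 1 by omega] at h7
          exact h7
    · have hjn' : j = n := le_antisymm hjn hge
      refine ⟨1, fun i => if i = 0 then c 0 else c n, le_rfl, by omega, if_pos rfl, by simp, ?_⟩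
      intro i hi
      have : i = 0 := by omega
      subst this
      simp only [if_true, zero_add, one_ne_zero, if_false]
      rw [← hjn']
      exact hjump

theorem main : Pool.Agent.H20.PT.S_G1.{u} := by
  intro X _ _ f δ hδ
  classical
  rcases isEmpty_or_nonempty X with hX | hX
  · exact ⟨0, fun x => (hX.false x).elim⟩
  obtain ⟨t, -, hfin, hcov⟩ := (isCompact_univ (X := X)).finite_cover_balls (e := δ / 4) (by positivity)
  have hex : ∀ p : X, ∃ z : hfin.toFinset, dist p z < δ / 4 := by
    intro p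
    have := hcov (mem_univ p)
    simp only [mem_iUnion, exists_prop] at this
    obtain ⟨z, hz, hp⟩ := this
    exact ⟨⟨z, hfin.mem_toFinset.mpr hz⟩, hp⟩
  choose cell hcell using hex
  have hc2 : ∀ p q, cell p = cell q → dist p q < δ / 2 := by
    intro p q h
    have h1 := hcell p
    have h2 := hcell q
    rw [← h] at h2
    have h3 := dist_triangle_right p q ((cell p : hfin.toFinset) : X)
    linarith
  refine ⟨(Finset.univ : Finset hfin.toFinset).card, fun x hx m => ?_⟩
  obtain ⟨n, c, hn, h0, hn', hs⟩ := ret f x hx m (δ / 2) (half_pos hδ)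
  obtain ⟨n', d, h1, h2, h3, h4, h5⟩ := short f δ cell hc2 _ Finset.univ le_rfl n c hn hs
    (fun i _ _ => Finset.mem_univ _)
  exact ⟨n', d, h1, h2, by rw [h3, h0], by rw [h4, hn'], h5⟩

end Pool.Agent.H21.PT
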