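import Pool.Agent.H20.PT.Hyp

/-! Project PT: orbits with short returns carry no bounded full orbit of vectors. -/

set_option autoImplicit false

open Filter Set Metric Topology

universe u

namespace Pool.Agent.H21.PTNB

open Pool.Agent.H20.PT

section

variable {X : Type u} {E : Type} [NormedAddCommGroup E] [NormedSpace ℝ E]

theorem append {S : CSys X E} {x y z : X} {m n : ℕ} {P Q : E ≃L[ℝ] E} (h : ETr S x y m P)
    (h' : ETr S y z n Q) : ETr S x z (m + n) (Q * P) := by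
  induction h' with
  | nil => rw [one_mul]; exact h
  | cons h'' hs ih => rw [mul_assoc]; exact ETr.cons ih hs

theorem bd {S : CSys X E} {x y : X} {n : ℕ} {M : E ≃L[ℝ] E} (h : ETr S x y n M) :
    (∀ v, ‖M v‖ ≤ S.C ^ n * ‖v‖) ∧ ∀ v, ‖M⁻¹ v‖ ≤ S.C ^ n * ‖v‖ := by
  have hC : 0 ≤ S.C := le_trans zero_le_one S.one_le
  induction h with
  | nil =>
    refine ⟨fun v => ?_, fun v => ?_⟩
    · rw [pow_zero, one_mul]; exact le_of_eq rfl
    · rw [pow_zero, one_mul, inv_one]; exact le_of_eq rfl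
  | cons h hs ih =>
    rename_i y z n M
    refine ⟨fun v => ?_, fun v => ?_⟩
    · have h1 : (S.A y z * M) v = S.A y z (M v) := rfl
      rw [h1]
      calc ‖S.A y z (M v)‖ ≤ ‖(S.A y z : E →L[ℝ] E)‖ * ‖M v‖ := (S.A y z : E →L[ℝ] E).le_opNorm _
        _ ≤ S.C * (S.C ^ n * ‖v‖) := mul_le_mul (S.up y z hs) (ih.1 v) (norm_nonneg _) hC
        _ = S.C ^ (n + 1) * ‖v‖ := by ring
    · have h1 : (S.A y z * M)⁻¹ v = M⁻¹ ((S.A y z).symm v) := by rw [mul_inv_rev]; rfl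
      rw [h1]
      calc ‖M⁻¹ ((S.A y z).symm v)‖ ≤ S.C ^ n * ‖(S.A y z).symm v‖ := ih.2 _
        _ ≤ S.C ^ n * (S.C * ‖v‖) := by
            refine mul_le_mul_of_nonneg_left ?_ (pow_nonneg hC _)
            calc ‖(S.A y z).symm v‖ ≤ ‖((S.A y z).symm : E →L[ℝ] E)‖ * ‖v‖ := ((S.A y z).symm : E →L[ℝ] E).le_opNorm _
              _ ≤ S.C * ‖v‖ := mul_le_mul_of_nonneg_right (S.low y z hs) (norm_nonneg _)
        _ = S.C ^ (n + 1) * ‖v‖ := by ring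

theorem fw_etr {S : CSys X E} {x : ℤ → X} (hx : ∀ i, S.step (x i) (x (i + 1))) (a : ℤ) (m : ℕ) :
    ETr S (x a) (x (a + m)) m (S.fw x a m) := by
  induction m with
  | zero =>
    have : a + ((0 : ℕ) : ℤ) = a := by simp
    rw [this]
    exact ETr.nil _
  | succ m ih =>
    have : a + ((m + 1 : ℕ) : ℤ) = a + m + 1 := by push_cast; ring
    rw [this]
    exact ETr.cons ih (hx _)

/-- the unstable space is invariant -/
theorem Eu_inv (M : E ≃L[ℝ] E) {u : E} (hu : u ∈ Eu M) : M u ∈ Eu M := by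
  have h : Tendsto (fun p : ℕ => (M⁻¹ ^ p) u) atTop (𝓝 0) := hu
  have h2 : Tendsto (fun p : ℕ => M ((M⁻¹ ^ p) u)) atTop (𝓝 (M 0)) := (M.continuous.tendsto 0).comp h
  rw [map_zero] at h2
  show Tendsto (fun p : ℕ => (M⁻¹ ^ p) (M u)) atTop (𝓝 0)
  refine h2.congr fun p => ?_
  have : M * M⁻¹ ^ p = M⁻¹ ^ p * M := ((Commute.refl M).inv_right.pow_right p).eq
  exact congrArg (fun N : E ≃L[ℝ] E => N u) this

theorem Es_inv (M : E ≃L[ℝ] E) {s : E} (hs : s ∈ Es M) : M⁻¹ s ∈ Es M := by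
  have h : Tendsto (fun p : ℕ => (M ^ p) s) atTop (𝓝 0) := hs
  have h2 : Tendsto (fun p : ℕ => M⁻¹ ((M ^ p) s)) atTop (𝓝 (M⁻¹ 0)) := ((M⁻¹).continuous.tendsto 0).comp h
  rw [map_zero] at h2
  show Tendsto (fun p : ℕ => (M ^ p) (M⁻¹ s)) atTop (𝓝 0)
  refine h2.congr fun p => ?_
  have : M⁻¹ * M ^ p = M ^ p * M⁻¹ := ((Commute.refl M).inv_left.pow_right p).eq
  exact congrArg (fun N : E ≃L[ℝ] E => N s) this

end

theorem main (hLF : S_LF.{u}) (hHYP : S_HYP1) (hANG : S_ANG) : S_NB.{u} := by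
  intro X E _ _ _ S κ hκ hκ1 hNC ℓ x hx hret v B hB hB'
  have hη : 0 < κ / 4 := by positivity
  have hη1 : κ / 4 ≤ 1 := by linarith
  have hθ : 1 < 1 + κ / 4 := by linarith
  have hC : 1 ≤ S.C := S.one_le
  have hB0 : 0 ≤ B := le_trans (norm_nonneg _) (hB 0)
  obtain ⟨K, hK1, hK⟩ := hHYP E (κ / 4) hη
  have hK0 : 0 < K := lt_of_lt_of_le one_pos hK1
  have hL := hLF X E S κ hκ hκ1 hNC (x 0)
  set θ := 1 + κ / 4 with hθd
  have hθ0 : 0 < θ := by linarith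
  -- the constant
  set D := K * (S.C ^ ℓ * B + K * (K * ‖v‖)) with hD
  have hD0 : 0 ≤ D := by positivity
  -- the forward decomposition
  have fwd : ∀ m : ℕ, ∃ (n : ℕ) (M : E ≃L[ℝ] E) (s u : E), 1 ≤ n ∧ ETr S (x 0) (x 0) n M ∧ s ∈ Es M ∧
      s + u = v ∧ ‖u‖ ≤ D * θ⁻¹ ^ m := by
    intro m
    obtain ⟨n, R, hn1, hn2, hR⟩ := hret 0 m (by positivity)
    have hP := fw_etr hx 0 m
    rw [zero_add] at hP
    have hM := append hP hR
    have hg := hL.good _ _ hM (by omega)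
    obtain ⟨hcomp, hproj, hs, hu⟩ := hK (θ ^ (m + n)) _ (one_lt_pow₀ hθ (by omega)) hg
    set M := R * S.fw x 0 m with hMd
    obtain ⟨s, hsm, u, hum, hsu⟩ : ∃ s ∈ Es M, ∃ u ∈ Eu M, s + u = v := by
      have : v ∈ Es M ⊔ Eu M := by rw [hcomp.sup_eq_top]; trivial
      exact Submodule.mem_sup.mp this
    refine ⟨m + n, M, s, u, by omega, hM, hsm, hsu, ?_⟩
    have h1 : ‖M v‖ ≤ S.C ^ ℓ * B := by
      calc ‖M v‖ = ‖R (S.fw x 0 m v)‖ := rfl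
        _ ≤ S.C ^ n * ‖S.fw x 0 m v‖ := (bd hR).1 _
        _ ≤ S.C ^ ℓ * B := mul_le_mul (pow_le_pow_right₀ hC hn2) (hB m) (norm_nonneg _) (by positivity)
    have hinv1 : (θ ^ (m + n))⁻¹ ≤ 1 := inv_le_one_of_one_le₀ (one_le_pow₀ hθ.le)
    have hs0 : ‖s‖ ≤ K * ‖v‖ := by rw [← hsu]; exact (hproj s hsm u hum).1
    have h2 : ‖M s‖ ≤ K * (K * ‖v‖) := by
      have h3 := hs 1 le_rfl s hsm
      rw [pow_one, pow_one] at h3
      calc ‖M s‖ ≤ K * (θ ^ (m + n))⁻¹ * ‖s‖ := h3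
        _ ≤ K * 1 * (K * ‖v‖) := by
            refine mul_le_mul (mul_le_mul_of_nonneg_left hinv1 hK0.le) hs0 (norm_nonneg _) (by positivity)
        _ = K * (K * ‖v‖) := by ring
    have h4 : ‖M u‖ ≤ S.C ^ ℓ * B + K * (K * ‖v‖) := by
      have : M u = M v - M s := by rw [← hsu, map_add]; abel
      rw [this]
      exact le_trans (norm_sub_le _ _) (add_le_add h1 h2)
    have h5 := hu 1 le_rfl (M u) (Eu_inv M hum)
    rw [pow_one, pow_one] at h5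
    have h6 : M⁻¹ (M u) = u := by
      show (M⁻¹ * M) u = u
      rw [inv_mul_cancel]
      rfl
    rw [h6] at h5
    have h7 : (θ ^ (m + n))⁻¹ ≤ θ⁻¹ ^ m := by
      rw [inv_pow]
      exact inv_anti₀ (pow_pos hθ0 _) (pow_le_pow_right₀ hθ.le (by omega))
    calc ‖u‖ ≤ K * (θ ^ (m + n))⁻¹ * ‖M u‖ := h5
      _ ≤ K * θ⁻¹ ^ m * (S.C ^ ℓ * B + K * (K * ‖v‖)) := by
          refine mul_le_mul (mul_le_mul_of_nonneg_left h7 hK0.le) h4 (norm_nonneg _) (by positivity)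
      _ = D * θ⁻¹ ^ m := by rw [hD]; ring
  -- the backward decomposition
  have bwd : ∀ m : ℕ, ∃ (n : ℕ) (M : E ≃L[ℝ] E) (s u : E), 1 ≤ n ∧ ETr S (x 0) (x 0) n M ∧ u ∈ Eu M ∧
      s + u = v ∧ ‖s‖ ≤ D * θ⁻¹ ^ m := by
    intro m
    obtain ⟨n, R, hn1, hn2, hR⟩ := hret (-m) 0 (by simp)
    have hP := fw_etr hx (-m) m
    rw [neg_add_cancel] at hP
    have hM := append hR hP
    have hg := hL.good _ _ hM (by omega)
    obtain ⟨hcomp, hproj, hs, hu⟩ := hK (θ ^ (n + m)) _ (one_lt_pow₀ hθ (by omega)) hg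
    set M := S.fw x (-m) m * R with hMd
    obtain ⟨s, hsm, u, hum, hsu⟩ : ∃ s ∈ Es M, ∃ u ∈ Eu M, s + u = v := by
      have : v ∈ Es M ⊔ Eu M := by rw [hcomp.sup_eq_top]; trivial
      exact Submodule.mem_sup.mp this
    refine ⟨n + m, M, s, u, by omega, hM, hum, hsu, ?_⟩
    have h1 : ‖M⁻¹ v‖ ≤ S.C ^ ℓ * B := by
      have h0 : M⁻¹ v = R⁻¹ ((S.fw x (-m) m)⁻¹ v) := by rw [hMd, mul_inv_rev]; rfl
      rw [h0]
      calc ‖R⁻¹ ((S.fw x (-m) m)⁻¹ v)‖ ≤ S.C ^ n * ‖(S.fw x (-m) m)⁻¹ v‖ := (bd hR).2 _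
        _ ≤ S.C ^ ℓ * B := mul_le_mul (pow_le_pow_right₀ hC hn2) (hB' m) (norm_nonneg _) (by positivity)
    have hinv1 : (θ ^ (n + m))⁻¹ ≤ 1 := inv_le_one_of_one_le₀ (one_le_pow₀ hθ.le)
    have hu0 : ‖u‖ ≤ K * ‖v‖ := by rw [← hsu]; exact (hproj s hsm u hum).2
    have h2 : ‖M⁻¹ u‖ ≤ K * (K * ‖v‖) := by
      have h3 := hu 1 le_rfl u hum
      rw [pow_one, pow_one] at h3
      calc ‖M⁻¹ u‖ ≤ K * (θ ^ (n + m))⁻¹ * ‖u‖ := h3
        _ ≤ K * 1 * (K * ‖v‖) := by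
            refine mul_le_mul (mul_le_mul_of_nonneg_left hinv1 hK0.le) hu0 (norm_nonneg _) (by positivity)
        _ = K * (K * ‖v‖) := by ring
    have h4 : ‖M⁻¹ s‖ ≤ S.C ^ ℓ * B + K * (K * ‖v‖) := by
      have : M⁻¹ s = M⁻¹ v - M⁻¹ u := by rw [← hsu, map_add]; abel
      rw [this]
      exact le_trans (norm_sub_le _ _) (add_le_add h1 h2)
    have h5 := hs 1 le_rfl (M⁻¹ s) (Es_inv M hsm)
    rw [pow_one, pow_one] at h5
    have h6 : M (M⁻¹ s) = s := by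
      show (M * M⁻¹) s = s
      rw [mul_inv_cancel]
      rfl
    rw [h6] at h5
    have h7 : (θ ^ (n + m))⁻¹ ≤ θ⁻¹ ^ m := by
      rw [inv_pow]
      exact inv_anti₀ (pow_pos hθ0 _) (pow_le_pow_right₀ hθ.le (by omega))
    calc ‖s‖ ≤ K * (θ ^ (n + m))⁻¹ * ‖M⁻¹ s‖ := h5
      _ ≤ K * θ⁻¹ ^ m * (S.C ^ ℓ * B + K * (K * ‖v‖)) := by
          refine mul_le_mul (mul_le_mul_of_nonneg_left h7 hK0.le) h4 (norm_nonneg _) (by positivity)
      _ = D * θ⁻¹ ^ m := by rw [hD]; ring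
  -- conclusion
  have key : ∀ m : ℕ, κ / 4 / 2 * ‖v‖ ≤ 3 * D * θ⁻¹ ^ m := by
    intro m
    obtain ⟨n, M, s, u, hn, hM, hs, hsu, hu⟩ := fwd m
    obtain ⟨n', M', s', u', hn', hM', hu', hsu', hs'⟩ := bwd m
    have h1 := hANG E (κ / 4) θ hη hη1 hθ _ hL n M n' M' hM hM' hn hn' s hs u' hu'
    have h2 : s - u' = s' - u := by
      have : s + u = s' + u' := by rw [hsu, hsu']
      have h3 : s - u' = s' - u + (s + u - (s' + u')) := by abel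
      rw [h3, this]; abel
    rw [h2] at h1
    have h3 : ‖s' - u‖ ≤ D * θ⁻¹ ^ m + D * θ⁻¹ ^ m := le_trans (norm_sub_le _ _) (add_le_add hs' hu)
    have h4 : ‖v‖ ≤ ‖s‖ + ‖u‖ := by rw [← hsu]; exact norm_add_le _ _
    have h5 : κ / 4 / 2 * ‖u‖ ≤ 1 * (D * θ⁻¹ ^ m) := mul_le_mul (by linarith) hu (norm_nonneg _) zero_le_one
    have h6 : κ / 4 / 2 * ‖v‖ ≤ κ / 4 / 2 * (‖s‖ + ‖u‖) := mul_le_mul_of_nonneg_left h4 (by positivity)
    nlinarith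
  have hlim : Tendsto (fun m : ℕ => 3 * D * θ⁻¹ ^ m) atTop (𝓝 (3 * D * 0)) :=
    (tendsto_pow_atTop_nhds_zero_of_lt_one (inv_nonneg.mpr hθ0.le) (inv_lt_one_of_one_lt₀ hθ)).const_mul _
  rw [mul_zero] at hlim
  have h0 : κ / 4 / 2 * ‖v‖ ≤ 0 := ge_of_tendsto' hlim key
  have h1 : ‖v‖ ≤ 0 := by
    by_contra hc
    push Not at hc
    have : 0 < κ / 4 / 2 * ‖v‖ := by positivity
    linarith
  exact norm_le_zero_iff.mp h1

end Pool.Agent.H21.PTNB
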