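import Pool.Agent.H20.PT.Ctl

/-! Project PT: nets of the balls of all radii. -/

set_option autoImplicit false

open Filter Set Metric Topology
open Pool.Agent.H718R2.G

namespace Pool.Agent.H21.PTNet

theorem main : Pool.Agent.H20.PT.S_NET := by
  intro d ρ hρ
  have hρ0 : 0 < ρ := lt_of_lt_of_le one_pos hρ
  haveI : ProperSpace (Pool.Agent.H20.PT.Kp d) := FiniteDimensional.proper ℝ _
  obtain ⟨t, hts, hfin, hcov⟩ := (isCompact_closedBall (0 : Pool.Agent.H20.PT.Kp d) 1).finite_cover_balls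
    (e := 1 / ρ) (by positivity)
  obtain ⟨m, e⟩ : ∃ m : ℕ, Nonempty (Fin m ≃ t) := by
    haveI := hfin.to_subtype
    exact ⟨Nat.card t, ⟨(Finite.equivFin t).symm⟩⟩
  obtain ⟨e⟩ := e
  refine ⟨m, fun κ₀ hκ => ⟨fun a => κ₀ • ((e a : t) : Pool.Agent.H20.PT.Kp d), fun a => ?_, fun w hw => ?_⟩⟩
  · have h := hts (e a).2
    rw [mem_closedBall_zero_iff] at h
    rw [norm_smul, Real.norm_of_nonneg hκ.le]
    calc κ₀ * ‖((e a : t) : Pool.Agent.H20.PT.Kp d)‖ ≤ κ₀ * 1 := mul_le_mul_of_nonneg_left h hκ.le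
      _ = κ₀ := mul_one _
  · have hw' : κ₀⁻¹ • w ∈ closedBall (0 : Pool.Agent.H20.PT.Kp d) 1 := by
      rw [mem_closedBall_zero_iff, norm_smul, norm_inv, Real.norm_of_nonneg hκ.le]
      rw [inv_mul_le_iff₀ hκ, mul_one]
      exact hw
    have h := hcov hw'
    simp only [mem_iUnion, exists_prop] at h
    obtain ⟨z, hz, hzw⟩ := h
    refine ⟨e.symm ⟨z, hz⟩, ?_⟩
    show ‖κ₀ • ((e (e.symm ⟨z, hz⟩) : t) : Pool.Agent.H20.PT.Kp d) - w‖ ≤ κ₀ / ρ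
    rw [Equiv.apply_symm_apply]
    have h2 : κ₀ • z - w = -(κ₀ • (κ₀⁻¹ • w - z)) := by
      rw [smul_sub, smul_smul, mul_inv_cancel₀ hκ.ne', one_smul, neg_sub]
    show ‖κ₀ • z - w‖ ≤ κ₀ / ρ
    rw [h2, norm_neg, norm_smul, Real.norm_of_nonneg hκ.le, ← dist_eq_norm]
    rw [mem_ball] at hzw
    calc κ₀ * dist (κ₀⁻¹ • w) z ≤ κ₀ * (1 / ρ) := mul_le_mul_of_nonneg_left hzw.le hκ.le
      _ = κ₀ / ρ := by ring

end Pool.Agent.H21.PTNet
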